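import Mathlib

/-!
# Divisor bound
-/

namespace Pool.Agent.LibHall79

/-- the divisor bound -/
theorem card_divisors_le (ε : ℝ) (hε : 0 < ε) :
    ∃ C : ℝ, 0 < C ∧ ∀ n : ℕ, 1 ≤ n → (n.divisors.card : ℝ) ≤ C * (n : ℝ) ^ ε := by
  set P : ℕ := ⌈(2 : ℝ) ^ (1 / ε)⌉₊ with hP
  have hl : 0 < Real.log 2 := Real.log_pos one_lt_two
  set M : ℝ := max 1 (1 / (ε * Real.log 2)) with hM
  have hM1 : 1 ≤ M := le_max_left _ _
  have hM2 : 1 ≤ M * (ε * Real.log 2) := by
    have : 1 / (ε * Real.log 2) ≤ M := le_max_right _ _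
    rwa [div_le_iff₀ (by positivity)] at this
  -- small primes
  have h1 : ∀ (p e : ℕ), 2 ≤ p → ((e : ℝ) + 1) ≤ M * ((p : ℝ) ^ e) ^ ε := by
    intro p e hp
    have hp' : (2 : ℝ) ≤ p := by exact_mod_cast hp
    have h2 : ((2 : ℝ) ^ e) ^ ε ≤ ((p : ℝ) ^ e) ^ ε := by
      apply Real.rpow_le_rpow (by positivity) _ hε.le
      exact pow_le_pow_left₀ (by norm_num) hp' e
    have h3 : 1 + e * (ε * Real.log 2) ≤ ((2 : ℝ) ^ e) ^ ε := by
      rw [← Real.rpow_natCast, ← Real.rpow_mul (by norm_num), Real.rpow_def_of_pos (by norm_num)]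
      have := Real.add_one_le_exp (Real.log 2 * (e * ε))
      linarith
    have he : (0 : ℝ) ≤ e := Nat.cast_nonneg e
    calc (e : ℝ) + 1 ≤ M * (1 + e * (ε * Real.log 2)) := by nlinarith
      _ ≤ M * ((p : ℝ) ^ e) ^ ε := by
        apply mul_le_mul_of_nonneg_left (h3.trans h2) (by linarith)
  -- large primes
  have h2 : ∀ (p e : ℕ), P ≤ p → ((e : ℝ) + 1) ≤ ((p : ℝ) ^ e) ^ ε := by
    intro p e hp
    have hp' : (2 : ℝ) ^ (1 / ε) ≤ p := Nat.ceil_le.1 hp
    have h3 : (2 : ℝ) ^ e ≤ ((p : ℝ) ^ e) ^ ε := by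
      calc (2 : ℝ) ^ e = (((2 : ℝ) ^ (1 / ε)) ^ e) ^ ε := by
            rw [← Real.rpow_natCast ((2 : ℝ) ^ (1 / ε)), ← Real.rpow_mul (by positivity),
              ← Real.rpow_mul (by positivity), ← Real.rpow_natCast]
            congr 1
            field_simp
        _ ≤ ((p : ℝ) ^ e) ^ ε := by
            apply Real.rpow_le_rpow (by positivity) _ hε.le
            exact pow_le_pow_left₀ (by positivity) hp' e
    have h4 : ((e : ℝ) + 1) ≤ (2 : ℝ) ^ e := by
      have : e + 1 ≤ 2 ^ e := Nat.lt_two_pow_self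
      exact_mod_cast this
    exact h4.trans h3
  refine ⟨M ^ P, by positivity, fun n hn => ?_⟩
  have hn0 : n ≠ 0 := by omega
  have e1 : (n.divisors.card : ℝ) = ∏ p ∈ n.primeFactors, ((n.factorization p : ℝ) + 1) := by
    rw [Nat.card_divisors hn0]
    push_cast
    rfl
  have e2 : (n : ℝ) ^ ε = ∏ p ∈ n.primeFactors, ((p : ℝ) ^ (n.factorization p)) ^ ε := by
    rw [Real.finsetProd_rpow _ _ (fun p _ => by positivity)]
    congr 1
    have := Nat.prod_factorization_pow_eq_self hn0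
    conv_lhs => rw [← this]
    rw [Finsupp.prod, Nat.support_factorization]
    push_cast
    rfl
  have h3 : ∀ p ∈ n.primeFactors, ((n.factorization p : ℝ) + 1) ≤
      (if p < P then M else 1) * ((p : ℝ) ^ (n.factorization p)) ^ ε := by
    intro p hp
    split_ifs with h
    · exact h1 p _ (Nat.prime_of_mem_primeFactors hp).two_le
    · rw [one_mul]
      exact h2 p _ (not_lt.1 h)
  have h4 : ∏ p ∈ n.primeFactors, (if p < P then M else 1) ≤ M ^ P := by
    rw [Finset.prod_ite, Finset.prod_const, Finset.prod_const_one, mul_one]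
    apply pow_le_pow_right₀ hM1
    calc (n.primeFactors.filter (fun p => p < P)).card ≤ (Finset.range P).card := by
          apply Finset.card_le_card
          intro p hp
          rw [Finset.mem_filter] at hp
          exact Finset.mem_range.2 hp.2
      _ = P := Finset.card_range P
  calc (n.divisors.card : ℝ) = ∏ p ∈ n.primeFactors, ((n.factorization p : ℝ) + 1) := e1
    _ ≤ ∏ p ∈ n.primeFactors, ((if p < P then M else 1) *
          ((p : ℝ) ^ (n.factorization p)) ^ ε) :=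
        Finset.prod_le_prod (fun p _ => by positivity) h3
    _ = (∏ p ∈ n.primeFactors, (if p < P then M else 1)) * (n : ℝ) ^ ε := by
        rw [Finset.prod_mul_distrib, e2]
    _ ≤ M ^ P * (n : ℝ) ^ ε := by gcongr

/-- the divisor bound, stated for positive `m` -/
theorem divisor_bound (e : ℝ) (he : 0 < e) :
    ∃ C : ℝ, 0 < C ∧ ∀ m : ℕ, 0 < m → (m.divisors.card : ℝ) ≤ C * (m : ℝ) ^ e :=
  card_divisors_le e he

end Pool.Agent.LibHall79
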